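import Pool.Agent.TubNbhd.OnePoint

open Set Topology Filter Pool.Agent.TubNbhd

namespace Pool.Agent.Results.MP_5c3f1f_gt.LocalToGlobal

/-- Let `ρ` be a locally linear involution of a four-manifold `M` and `F` a component of its
fixed point set which is a line (then `S` is empty) or a circle (then `S` is one point of `F`).
Two equivariant tubular neighbourhoods of `F` that are equivalent near one point `q` of `F \ S`
are equivalent near `F \ S`. -/
theorem result {M : Type*} [TopologicalSpace M] [T2Space M] [SecondCountableTopology M]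
    [ChartedSpace (EuclideanSpace ℝ (Fin 4)) M] {ρ : M ≃ₜ M} (hρ : IsLocLinInvolution ρ)
    {F : Set M} (hF : IsFixedComponent ρ F) {S : Set M}
    (hS : S = ∅ ∨ ∃ p ∈ F, S = {p} ∧ IsCompact F) (hline : Nonempty (↥(F \ S) ≃ₜ ℝ))
    (φ ψ : EquivTub ρ F) {q : M} (hq : q ∈ F \ S) (h : EquivalentNear φ ψ {q}) :
    EquivalentNear φ ψ (F \ S) := by
  have : LocallyCompactSpace M := ChartedSpace.locallyCompactSpace (EuclideanSpace ℝ (Fin 4)) M
  exact local_to_global hρ.involutive hF hS hline φ ψ hq.1 hq.2 h

end Pool.Agent.Results.MP_5c3f1f_gt.LocalToGlobal
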