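import Pool.Agent.TubNbhd.OnePoint

open Set Topology Filter Pool.Agent.TubNbhd

namespace Pool.Agent.Results.MP_5c3f1f_gt.OnePoint

/-- Let `ρ` be a locally linear involution of a four-manifold `M` and `F` a component of its
fixed point set which is a line (then `S` is empty) or a circle (then `S` is one point of `F`).
If the transition map `h` between two equivariant tubular neighbourhoods of `F` is strictly
differentiable, with invertible derivative, at one point `q` of `F \ S`, then the two tubular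
neighbourhoods are equivalent near `F \ S`. -/
theorem result {M : Type*} [TopologicalSpace M] [T2Space M] [SecondCountableTopology M]
    [ChartedSpace (EuclideanSpace ℝ (Fin 4)) M] {ρ : M ≃ₜ M} (hρ : IsLocLinInvolution ρ)
    {F : Set M} (hF : IsFixedComponent ρ F) {S : Set M}
    (hS : S = ∅ ∨ ∃ p ∈ F, S = {p} ∧ IsCompact F) (e : ↥(F \ S) ≃ₜ ℝ)
    (φ ψ : EquivTub ρ F) {q : M} (hq : q ∈ F \ S) {h : ℝ × V3 → ℝ × V3}
    (hh : ∀ᶠ w in 𝓝 (e ⟨q, hq⟩, (0 : V3)), ψ.coord e w = φ.coord e (h w))
    (D : (ℝ × V3) ≃L[ℝ] (ℝ × V3))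
    (hD : HasStrictFDerivAt h (D : (ℝ × V3) →L[ℝ] (ℝ × V3)) (e ⟨q, hq⟩, (0 : V3))) :
    EquivalentNear φ ψ (F \ S) := by
  have : LocallyCompactSpace M := ChartedSpace.locallyCompactSpace (EuclideanSpace ℝ (Fin 4)) M
  have hSc : IsClosed S := by
    rcases hS with h | ⟨p, hp, h, _⟩
    · rw [h]; exact isClosed_empty
    · rw [h]; exact isClosed_singleton
  exact local_to_global hρ.involutive hF hS ⟨e⟩ φ ψ hq.1 hq.2
    (equivalentNear_of_strict hρ.involutive hF hSc e φ ψ hq hh D hD)

end Pool.Agent.Results.MP_5c3f1f_gt.OnePoint
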